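import Pool.Agent.Run7.h433.Nak.Iface

/-!
Piece THR: composition of the maps `th` with the operators.
-/

set_option autoImplicit false

namespace Run7.h632.Nak

open Run7.h433.Nak

/-! ### matrix identities -/

theorem BA : mB * mA = mA * (-mB) := by rw [rel_BA, mul_neg]
theorem FA : mF * mA = mA * (-mF) := by rw [rel_FA, mul_neg]
theorem XA : mX * mA = mA * (-mX) + -(mF * mB) := by rw [rel_XA, mul_neg, sub_eq_add_neg]
theorem BF : mB * mF = -(mF * mB) := rel_FB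
theorem BX : mB * mX = -(mX * mB) := rel_XB
theorem FX : mF * mX = -(mX * mF) := rel_FX
theorem BZ : mB * mZ = mZ * (-mB) + (2 : ℚ) • (mX * mB) := by
  rw [mul_neg, rel_ZB]; abel
theorem FZ : mF * mZ = mZ * (-mF) + -((2 : ℚ) • (mX * mF)) := by
  rw [mul_neg, rel_ZF]; abel
theorem XZ : mX * mZ = mZ * (-mX) := by
  rw [mul_neg, rel_ZX, neg_neg]

theorem FBA : mF * mB * mA = mA * (mF * mB) := by
  rw [mul_assoc, BA, ← mul_assoc, FA]
  simp only [mul_assoc, mul_neg, neg_mul, neg_neg]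

theorem FBB : mF * mB * mB = 0 := by rw [mul_assoc, rel_BB, mul_zero]
theorem XBB : mX * mB * mB = 0 := by rw [mul_assoc, rel_BB, mul_zero]
theorem XFBB : mX * mF * mB * mB = 0 := by rw [mul_assoc, rel_BB, mul_zero]

theorem XBA : mX * mB * mA = mA * (mX * mB) := by
  rw [mul_assoc, BA, ← mul_assoc, XA, add_mul]
  have : -(mF * mB) * -mB = 0 := by rw [neg_mul_neg, FBB]
  rw [this, add_zero]
  simp only [mul_assoc, mul_neg, neg_mul, neg_neg]

theorem FBF : mF * mB * mF = 0 := by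
  rw [mul_assoc, BF, mul_neg, ← mul_assoc, rel_FF, zero_mul, neg_zero]

theorem XFA : mX * mF * mA = mA * (mX * mF) := by
  rw [mul_assoc, FA, ← mul_assoc, XA, add_mul]
  have : -(mF * mB) * -mF = 0 := by rw [neg_mul_neg, FBF]
  rw [this, add_zero]
  simp only [mul_assoc, mul_neg, neg_mul, neg_neg]

theorem XFBA : mX * mF * mB * mA = mA * (-(mX * mF * mB)) := by
  rw [mul_assoc (mX * mF), BA, ← mul_assoc, XFA]
  simp only [mul_assoc, mul_neg]

theorem FBZ : mF * mB * mZ = mZ * (mF * mB) := by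
  rw [mul_assoc, BZ, mul_add, ← mul_assoc mF, FZ, add_mul]
  have h1 : mF * ((2 : ℚ) • (mX * mB)) = -((2 : ℚ) • (mX * mF * mB)) := by
    rw [mul_smul_comm, ← mul_assoc, FX, neg_mul, smul_neg]
  have h2 : -((2 : ℚ) • (mX * mF)) * -mB = (2 : ℚ) • (mX * mF * mB) := by
    rw [neg_mul_neg, smul_mul_assoc]
  rw [h1, h2]
  have h3 : mZ * -mF * -mB = mZ * (mF * mB) := by
    simp only [mul_assoc, mul_neg, neg_mul, neg_neg]
  rw [h3]
  abel

theorem FBX : mF * mB * mX = mX * mF * mB := by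
  rw [mul_assoc, BX, mul_neg, ← mul_assoc, FX, neg_mul, neg_neg]

theorem XBZ : mX * mB * mZ = mZ * (mX * mB) := by
  rw [mul_assoc, BZ, mul_add, ← mul_assoc mX, XZ]
  have h1 : mX * ((2 : ℚ) • (mX * mB)) = 0 := by
    rw [mul_smul_comm, ← mul_assoc, rel_XX, zero_mul, smul_zero]
  rw [h1, add_zero]
  simp only [mul_assoc, mul_neg, neg_mul, neg_neg]

theorem XBF : mX * mB * mF = -(mX * mF * mB) := by
  rw [mul_assoc, BF, mul_neg, ← mul_assoc]

theorem XBX : mX * mB * mX = 0 := by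
  rw [mul_assoc, BX, mul_neg, ← mul_assoc, rel_XX, zero_mul, neg_zero]

theorem XFZ : mX * mF * mZ = mZ * (mX * mF) := by
  rw [mul_assoc, FZ, mul_add, ← mul_assoc mX, XZ]
  have h1 : mX * -((2 : ℚ) • (mX * mF)) = 0 := by
    rw [mul_neg, mul_smul_comm, ← mul_assoc, rel_XX, zero_mul, smul_zero, neg_zero]
  rw [h1, add_zero]
  simp only [mul_assoc, mul_neg, neg_mul, neg_neg]

theorem XFF : mX * mF * mF = 0 := by rw [mul_assoc, rel_FF, mul_zero]

theorem XFX : mX * mF * mX = 0 := by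
  rw [mul_assoc, FX, mul_neg, ← mul_assoc, rel_XX, zero_mul, neg_zero]

theorem XFBZ : mX * mF * mB * mZ = mZ * (-(mX * mF * mB)) := by
  rw [show mX * mF * mB * mZ = mX * (mF * mB * mZ) by simp only [mul_assoc], FBZ, ← mul_assoc, XZ]
  simp only [mul_assoc, mul_neg, neg_mul]

theorem XFBF : mX * mF * mB * mF = 0 := by
  rw [show mX * mF * mB * mF = mX * (mF * mB * mF) by simp only [mul_assoc], FBF, mul_zero]

theorem XFBX : mX * mF * mB * mX = 0 := by
  rw [show mX * mF * mB * mX = mX * (mF * mB * mX) by simp only [mul_assoc], FBX, mul_assoc mX,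
    ← mul_assoc, rel_XX, zero_mul]

theorem BXFB : mB * (mX * mF * mB) = 0 := by
  rw [show mB * (mX * mF * mB) = mB * mX * mF * mB by simp only [mul_assoc], BX]
  rw [show -(mX * mB) * mF * mB = -(mX * (mB * mF) * mB) by simp only [mul_assoc, neg_mul], BF]
  rw [show -(mX * -(mF * mB) * mB) = mX * mF * (mB * mB) by
    simp only [mul_assoc, neg_mul, mul_neg, neg_neg], rel_BB, mul_zero]

theorem FXFB : mF * (mX * mF * mB) = 0 := by
  rw [show mF * (mX * mF * mB) = mF * mX * mF * mB by simp only [mul_assoc], FX]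
  rw [show -(mX * mF) * mF * mB = -(mX * (mF * mF) * mB) by simp only [mul_assoc, neg_mul], rel_FF,
    mul_zero, zero_mul, neg_zero]

theorem XXFB : mX * (mX * mF * mB) = 0 := by
  rw [show mX * (mX * mF * mB) = mX * mX * mF * mB by simp only [mul_assoc], rel_XX, zero_mul,
    zero_mul]

/-! ### the maps into `X` -/

/-- `y ↦ xi (M y)` -/
def xm (M : Matrix I I ℚ) (y : W (Vm 0)) : X := xi (oM M y)

instance : Module ℚ X := inferInstance

theorem xi_smul (c : ℚ) (y : W (Vm 0)) : xi (c • y) = c • xi y := by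
  exact map_smul (xi.restrictScalars ℚ) c y

theorem xm_add (M N : Matrix I I ℚ) (y : W (Vm 0)) : xm (M + N) y = xm M y + xm N y := by
  rw [xm, oM_add, map_add]; rfl
theorem xm_neg (M : Matrix I I ℚ) (y : W (Vm 0)) : xm (-M) y = - xm M y := by
  rw [xm, oM_neg, map_neg]; rfl
theorem xm_zero (y : W (Vm 0)) : xm 0 y = 0 := by
  rw [xm, oM_zero, map_zero]
theorem xm_smul (c : ℚ) (M : Matrix I I ℚ) (y : W (Vm 0)) : xm (c • M) y = c • xm M y := by
  rw [xm, oM_smul, xi_smul]; rfl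
theorem xm_A (h : S_XRL) (M : Matrix I I ℚ) (y : W (Vm 0)) : xm (mA * M) y = 0 := by
  rw [xm, oM_mul, h.A]
theorem xm_Z (h : S_XRL) (M : Matrix I I ℚ) (y : W (Vm 0)) : xm (mZ * M) y = 0 := by
  rw [xm, oM_mul, h.Z]
theorem xm_Y1 (h : S_XRL) (M : Matrix I I ℚ) (y : W (Vm 0)) : xm (mY1 * M) y = 0 := by
  rw [xm, oM_mul, h.Y1]
theorem xm_Y2 (h : S_XRL) (M : Matrix I I ℚ) (y : W (Vm 0)) : xm (mY2 * M) y = 0 := by
  rw [xm, oM_mul, h.Y2]

section

variable {V V' : Type} [AddCommGroup V] [Module ℚ V] [AddCommGroup V'] [Module ℚ V']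

theorem th_eq (s : Matrix I I ℚ) (ψ : V →ₗ[ℚ] Vm 0) (x : W V) : th s ψ x = xm s (oL ψ x) := rfl

theorem xm_sub_arg (M : Matrix I I ℚ) (y y' : W (Vm 0)) : xm M (y - y') = xm M y - xm M y' := by
  rw [xm, map_sub, map_sub]; rfl
theorem xm_add_arg (M : Matrix I I ℚ) (y y' : W (Vm 0)) : xm M (y + y') = xm M y + xm M y' := by
  rw [xm, map_add, map_add]; rfl

theorem xm_oM (M N : Matrix I I ℚ) (y : W (Vm 0)) : xm M (oM N y) = xm (M * N) y := by
  rw [xm, xm, oM_mul]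

theorem th_oa (S : SL V) (s : Matrix I I ℚ) (ψ : V →ₗ[ℚ] Vm 0) (x : W V) :
    th s ψ (oa S x) = xm (s * mA) (oL ψ x) - xm (s * mB) (oL (ψ ∘ₗ S.e) x) := by
  rw [th_eq, oa, LinearMap.sub_apply, LinearMap.comp_apply, map_sub, xm_sub_arg, oL_oL, ← oM_oL,
    ← oM_oL, xm_oM, xm_oM]

theorem th_oz (S : SL V) (s : Matrix I I ℚ) (ψ : V →ₗ[ℚ] Vm 0) (x : W V) :
    th s ψ (oz S x) = xm (s * mZ) (oL ψ x) - xm (s * mF) (oL (ψ ∘ₗ S.f) x) -
      xm (s * mX) (oL (ψ ∘ₗ S.h) x) := by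
  rw [th_eq, oz, LinearMap.sub_apply, LinearMap.sub_apply, LinearMap.comp_apply,
    LinearMap.comp_apply, map_sub, map_sub, xm_sub_arg, xm_sub_arg, oL_oL, oL_oL, ← oM_oL,
    ← oM_oL, ← oM_oL, xm_oM, xm_oM, xm_oM]

theorem th_ok (s : Matrix I I ℚ) (ψ : V →ₗ[ℚ] Vm 0) (x : W V) :
    th s ψ (ok x) = xm (s * (mX * mF * mB)) (oL ψ x) := by
  rw [th_eq, ok, ← oM_oL, xm_oM]

theorem th_oY (s : Matrix I I ℚ) (P Q : V' →ₗ[ℚ] V) (ψ : V →ₗ[ℚ] Vm 0) (x : W V') :
    th s ψ (oY P Q x) = xm (s * mY1) (oL (ψ ∘ₗ P) x) + xm (s * mY2) (oL (ψ ∘ₗ Q) x) := by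
  rw [th_eq, oY, LinearMap.add_apply, LinearMap.comp_apply, LinearMap.comp_apply, map_add,
    xm_add_arg, oL_oL, oL_oL, ← oM_oL, ← oM_oL, xm_oM, xm_oM]

theorem oL_add_map (ψ ψ' : V →ₗ[ℚ] Vm 0) (x : W V) : oL (ψ + ψ') x = oL ψ x + oL ψ' x := rfl
theorem oL_neg_map (ψ : V →ₗ[ℚ] Vm 0) (x : W V) : oL (-ψ) x = -oL ψ x := rfl
theorem oL_smul_map (c : ℚ) (ψ : V →ₗ[ℚ] Vm 0) (x : W V) : oL (c • ψ) x = c • oL ψ x := rfl
theorem xm_neg_arg (M : Matrix I I ℚ) (y : W (Vm 0)) : xm M (-y) = - xm M y := by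
  rw [xm, map_neg, map_neg]; rfl
theorem xm_smul_arg (M : Matrix I I ℚ) (c : ℚ) (y : W (Vm 0)) : xm M (c • y) = c • xm M y := by
  rw [xm, map_smul, xi_smul]; rfl

theorem isT_one : IsT (oM 1 : W V →ₗ[ℚ] W V) := by
  intro t x
  rw [oM_one, oM_one]

theorem isT_mul {M N : Matrix I I ℚ} (h : IsT (oM M : W V →ₗ[ℚ] W V))
    (h' : IsT (oM N : W V →ₗ[ℚ] W V)) : IsT (oM (M * N) : W V →ₗ[ℚ] W V) := by
  intro t x
  rw [oM_mul, oM_mul, h', h]

theorem thr1 (hx : S_XRL) (S : SL V) (ψ : V →ₗ[ℚ] Vm 0) : Thr S ψ where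
  a1 x := by
    rw [th_oa, one_mul, one_mul, show mA = mA * 1 by rw [mul_one], xm_A hx, zero_sub]; rfl
  aB x := by
    rw [th_oa, BA, rel_BB, xm_A hx, xm_zero, sub_zero]
  aF x := by
    rw [th_oa, FA, xm_A hx, zero_sub]; rfl
  aX x := by
    rw [th_oa, XA, xm_add, xm_A hx, xm_neg, zero_add (-xm (mF * mB) (oL ψ x))]; rfl
  aBF x := by
    rw [th_oa, FBA, FBB, xm_A hx, xm_zero, sub_zero]
  aBX x := by
    rw [th_oa, XBA, XBB, xm_A hx, xm_zero, sub_zero]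
  aFX x := by
    rw [th_oa, XFA, xm_A hx, zero_sub]; rfl
  aBFX x := by
    rw [th_oa, XFBA, XFBB, xm_A hx, xm_zero, sub_zero]
  z1 x := by
    rw [th_oz, one_mul, one_mul, one_mul, show mZ = mZ * 1 by rw [mul_one], xm_Z hx, zero_sub]; rfl
  zB x := by
    rw [th_oz, BZ, BF, BX, xm_add, xm_Z hx, xm_smul, xm_neg, xm_neg, th_eq, th_eq, oL_add_map,
      oL_smul_map, xm_add_arg, xm_smul_arg]
    abel
  zF x := by
    rw [th_oz, FZ, rel_FF, FX, xm_add, xm_Z hx, xm_neg, xm_smul, xm_zero, xm_neg, th_eq, oL_add_map,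
      oL_neg_map, oL_smul_map, xm_add_arg, xm_neg_arg, xm_smul_arg]
    abel
  zX x := by
    rw [th_oz, XZ, rel_XX, xm_Z hx, xm_zero, zero_sub, sub_zero]; rfl
  zBF x := by
    rw [th_oz, FBZ, FBF, FBX, xm_Z hx, xm_zero, sub_zero, zero_sub]; rfl
  zBX x := by
    rw [th_oz, XBZ, XBF, XBX, xm_Z hx, xm_zero, sub_zero, zero_sub, xm_neg, neg_neg]; rfl
  zFX x := by
    rw [th_oz, XFZ, XFF, XFX, xm_Z hx, xm_zero, xm_zero, sub_zero, sub_zero]
  zBFX x := by
    rw [th_oz, XFBZ, XFBF, XFBX, xm_Z hx, xm_zero, xm_zero, sub_zero, sub_zero]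
  k1 x := by
    rw [th_ok, one_mul]; rfl
  kB x := by rw [th_ok, BXFB, xm_zero]
  kF x := by rw [th_ok, FXFB, xm_zero]
  kX x := by rw [th_ok, XXFB, xm_zero]
  lin s ψ' c x := by
    rw [th_eq, oL_add_map, oL_smul_map, xm_add_arg, xm_smul_arg]; rfl
  addx s x x' := by
    rw [th_eq, map_add, xm_add_arg]; rfl
  smulx s c x := by
    rw [th_eq, map_smul, xm_smul_arg]; rfl
  tlin s hs t x := by
    have h1 : IsT (oM s : W (Vm 0) →ₗ[ℚ] W (Vm 0)) := by
      simp only [Set.mem_insert_iff, Set.mem_singleton_iff] at hs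
      rcases hs with rfl | rfl | rfl | rfl | rfl | rfl | rfl | rfl
      · exact isT_one
      · exact isT_B
      · exact isT_F
      · exact isT_X
      · exact isT_mul isT_F isT_B
      · exact isT_mul isT_X isT_B
      · exact isT_mul isT_X isT_F
      · exact isT_mul (isT_mul isT_X isT_F) isT_B
    have h2 := isT_oL ψ t x
    unfold th
    rw [h2, h1, map_smul]

theorem comm_Y (N : Matrix I I ℚ) (hB : mB * N = N * mB) (hF : mF * N = N * mF)
    (hX : mX * N = N * mX) (s : Matrix I I ℚ)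
    (hs : s ∈ ({1, mB, mF, mX, mF * mB, mX * mB, mX * mF, mX * mF * mB} : Set (Matrix I I ℚ))) :
    s * N = N * s := by
  have hB' : Commute mB N := hB
  have hF' : Commute mF N := hF
  have hX' : Commute mX N := hX
  simp only [Set.mem_insert_iff, Set.mem_singleton_iff] at hs
  rcases hs with rfl | rfl | rfl | rfl | rfl | rfl | rfl | rfl
  · exact Commute.one_left N
  · exact hB'
  · exact hF'
  · exact hX'
  · exact hF'.mul_left hB'
  · exact hX'.mul_left hB'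
  · exact hX'.mul_left hF'
  · exact (hX'.mul_left hF').mul_left hB'

end

/-- THR -/
theorem thr (hx : S_XRL) : S_THR := by
  refine ⟨fun V _ _ S ψ => thr1 hx S ψ, ?_⟩
  intro V V' _ _ _ _ P Q ψ s hs x
  rw [th_oY, comm_Y mY1 rel_Y1B.symm rel_Y1F.symm rel_Y1X.symm s hs,
    comm_Y mY2 rel_Y2B.symm rel_Y2F.symm rel_Y2X.symm s hs, xm_Y1 hx, xm_Y2 hx, add_zero]

end Run7.h632.Nak
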