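import Pool.Agent.Run7.h632.Nak.XRL

/-!
Piece TST: structure of `T`, generators of the modules `Wg`.
-/

set_option autoImplicit false

namespace Run7.h632.Nak

open Run7.h433.Nak

theorem bd_one : bd 1 = 1 := by
  ext p q
  unfold bd
  by_cases h : p = q
  · subst h; simp
  · rw [Matrix.one_apply_ne h]
    split_ifs with h1
    · rw [Matrix.one_apply_ne]
      exact fun h2 => h (Prod.ext h1 h2)
    · rfl

theorem bd_mul (M N : Matrix I I ℚ) : bd (M * N) = bd M * bd N := by
  ext p q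
  rw [Matrix.mul_apply, Fintype.sum_prod_type, Finset.sum_eq_single p.1]
  · unfold bd
    by_cases h : p.1 = q.1
    · simp only [h, if_true, Matrix.mul_apply]
    · simp [h]
  · intro τ _ hτ
    refine Finset.sum_eq_zero fun s _ => ?_
    rw [bd, if_neg (fun h : p.1 = τ => hτ h.symm), zero_mul]
  · simp

theorem comm_bd (t : T) (w : List ℕ) (hw : ∀ n ∈ w, n < 7) :
    t.mat * bd ((w.map Run7.h433.Nak.mt).prod) = bd ((w.map Run7.h433.Nak.mt).prod) * t.mat := by
  induction w with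
  | nil => rw [List.map_nil, List.prod_nil, bd_one, mul_one, one_mul]
  | cons n w ih =>
    have h1 := ih (fun m hm => hw m (by simp [hm]))
    have h2 : n < 7 := hw n (by simp)
    have h3 : t.mat * bd (Run7.h433.Nak.mt n) = bd (Run7.h433.Nak.mt n) * t.mat :=
      t.comm ⟨n, h2⟩
    rw [List.map_cons, List.prod_cons, bd_mul, ← mul_assoc, h3, mul_assoc, h1, mul_assoc]

theorem wordR_lt (r : ℕ) : ∀ n ∈ wordR r, n < 7 := by
  intro n hn
  unfold wordR at hn
  simp only [List.mem_append] at hn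
  rcases hn with (((((hn | hn) | hn) | hn) | hn) | hn) | hn <;> split_ifs at hn <;>
    simp at hn <;> omega

theorem comm_RW (t : T) (s : I) : t.mat * bd (RW s) = bd (RW s) * t.mat :=
  comm_bd t (wordR s) (wordR_lt s)

/-- the matrix `E_(τ σ) ⊗ LW r` -/
def EM (τ σ : Vt) (r : I) : Matrix J J ℚ :=
  fun p q => if p.1 = τ ∧ q.1 = σ then LW r p.2 q.2 else 0

section

variable (hL : S_LWS)
include hL

/-- the columns of an element of `T` are determined by the columns `(σ, 0)` -/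
theorem col (t : T) (p : J) (σ : Vt) (s : I) :
    t.mat p (σ, s) = ∑ r : I, RW s p.2 r * t.mat (p.1, r) (σ, 0) := by
  have h1 : (t.mat * bd (RW s)) p (σ, 0) = t.mat p (σ, s) := by
    rw [Matrix.mul_apply, Finset.sum_eq_single (σ, s)]
    · rw [bd, if_pos rfl, hL.r0, if_pos rfl, mul_one]
    · rintro ⟨τ, r⟩ _ hne
      unfold bd
      split_ifs with h
      · have h' : τ = σ := h
        rw [hL.r0, if_neg, mul_zero]
        rintro rfl
        exact hne (by rw [h'])
      · rw [mul_zero]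
    · simp
  rw [← h1, comm_RW, Matrix.mul_apply, Fintype.sum_prod_type, Finset.sum_eq_single p.1]
  · refine Finset.sum_congr rfl fun r _ => ?_
    rw [bd, if_pos rfl]
  · intro τ _ hτ
    refine Finset.sum_eq_zero fun r _ => ?_
    rw [bd, if_neg (fun h : p.1 = τ => hτ h.symm), zero_mul]
  · simp

omit hL in
theorem EM_apply (τ σ : Vt) (r : I) (p q : J) :
    EM τ σ r p q = if p.1 = τ ∧ q.1 = σ then LW r p.2 q.2 else 0 := rfl

theorem exE' (τ σ : Vt) (r : I) (h1 : sI τ r = vI σ) (h2 : sG τ r = vG σ) :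
    ∃ t : T, IsE t τ σ r := by
  refine ⟨T.mk (EM τ σ r) ⟨?_, ?_⟩, fun p q => rfl⟩
  · intro g
    ext p q
    rw [Matrix.mul_apply, Matrix.mul_apply, Fintype.sum_prod_type, Fintype.sum_prod_type]
    by_cases hc : p.1 = τ ∧ q.1 = σ
    · have hcomm := congrFun (congrFun (hL.comm r g) p.2) q.2
      rw [Matrix.mul_apply, Matrix.mul_apply] at hcomm
      rw [Finset.sum_eq_single q.1, Finset.sum_eq_single p.1]
      · rw [show (∑ y : I, EM τ σ r p (q.1, y) * rr g (q.1, y) q) =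
          ∑ y : I, LW r p.2 y * rm g y q.2 from Finset.sum_congr rfl fun y _ => by
            rw [EM_apply, if_pos hc, rr, if_pos rfl]]
        rw [hcomm]
        refine Finset.sum_congr rfl fun y _ => ?_
        rw [EM_apply, if_pos hc, rr, if_pos rfl]
      · intro τ' _ hτ'
        refine Finset.sum_eq_zero fun y _ => ?_
        rw [rr, if_neg (fun h : p.1 = τ' => hτ' h.symm), zero_mul]
      · simp
      · intro τ' _ hτ'
        refine Finset.sum_eq_zero fun y _ => ?_
        rw [rr, if_neg (fun h : τ' = q.1 => hτ' h), mul_zero]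
      · simp
    · rw [Finset.sum_eq_zero, Finset.sum_eq_zero]
      · intro τ' _
        refine Finset.sum_eq_zero fun y _ => ?_
        by_cases h3 : p.1 = τ'
        · subst h3
          rw [EM_apply, if_neg hc, mul_zero]
        · rw [rr, if_neg h3, zero_mul]
      · intro τ' _
        refine Finset.sum_eq_zero fun y _ => ?_
        by_cases h3 : τ' = q.1
        · subst h3
          rw [EM_apply, if_neg hc, zero_mul]
        · rw [rr, if_neg (fun h : (τ', y).1 = q.1 => h3 h), mul_zero]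
  · intro p q h
    rw [EM_apply] at h
    split_ifs at h with hc
    · have h3 := hL.deg r p.2 q.2 h
      rw [hc.1, hc.2]
      constructor
      · rw [sI, sI, h3.1, ← add_assoc]
        rw [sI] at h1
        rw [h1]
      · rw [sG, sG, h3.2]
        rw [sG] at h2
        rw [← h2]
        ring
    · exact absurd rfl h

end

section

variable {V : Type} [AddCommGroup V] [Module ℚ V]

theorem smul_sg (t : T) (σ : Vt) (v : V) (τ : Vt) (r : I) :
    (t • (sg σ 0 v : W V)) τ r = t.mat (τ, r) (σ, 0) • v := by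
  rw [smul_def, act_apply, Finset.sum_eq_single (σ, 0)]
  · show t.mat (τ, r) (σ, 0) • (if σ = σ ∧ (0 : I) = 0 then v else 0) = _
    rw [if_pos ⟨rfl, rfl⟩]
  · rintro ⟨τ', r'⟩ _ hne
    show _ • (if τ' = σ ∧ r' = 0 then v else 0) = 0
    rw [if_neg, smul_zero]
    rintro ⟨rfl, rfl⟩
    exact hne rfl
  · simp

theorem smE' (hL : S_LWS) (t : T) (τ σ : Vt) (r : I) (ht : IsE t τ σ r) (v : V) :
    t • (sg σ 0 v : W V) = sg τ r v := by
  funext τ' r'
  rw [smul_sg, ht]
  show (if τ' = τ ∧ σ = σ then LW r r' 0 else 0) • v = if τ' = τ ∧ r' = r then v else 0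
  by_cases h1 : τ' = τ
  · rw [if_pos ⟨h1, rfl⟩, hL.l0]
    by_cases h2 : r' = r
    · rw [if_pos h2, if_pos ⟨h1, h2⟩, one_smul]
    · rw [if_neg h2, if_neg (fun h => h2 h.2), zero_smul]
  · rw [if_neg (fun h => h1 h.1), if_neg (fun h => h1 h.1), zero_smul]

theorem uniq' (hL : S_LWS) (t t' : T)
    (h : ∀ σ : Vt, t • (sg σ 0 1 : W ℚ) = t' • sg σ 0 1) : t = t' := by
  apply T.ext
  ext p q
  obtain ⟨σ, s⟩ := q
  rw [col hL t p σ s, col hL t' p σ s]
  refine Finset.sum_congr rfl fun r _ => ?_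
  have h1 := congrFun (congrFun (h σ) p.1) r
  rw [smul_sg, smul_sg, smul_eq_mul, smul_eq_mul, mul_one, mul_one] at h1
  rw [h1]

theorem sgx_mem {σ : Vt} {x : W V} (hx : x ∈ Wg V (vI σ) (vG σ)) (τ : Vt) (r : I) :
    sg τ r (x τ r) ∈ Wg V (vI σ) (vG σ) := by
  by_cases h0 : x τ r = 0
  · have : sg τ r (x τ r) = 0 := by
      funext τ' r'
      show (if τ' = τ ∧ r' = r then x τ r else 0) = 0
      split_ifs
      · exact h0
      · rfl
    rw [this]
    exact zero_mem _
  · have h1 := hx τ r h0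
    have h2 := sg_mem' τ r (x τ r)
    rwa [h1.1, h1.2] at h2

theorem sg0_mem'' (σ : Vt) (v : V) : sg σ 0 v ∈ Wg V (vI σ) (vG σ) := by
  have := sg_mem' σ 0 v
  have e1 : sI σ 0 = vI σ := by simp [sI, nI]
  have e2 : sG σ 0 = vG σ := by simp [sG, nG]
  rwa [e1, e2] at this

theorem gen' (hL : S_LWS) (σ : Vt) (M : Type) [AddCommGroup M] [Module T M]
    (f f' : ↥(Wg V (vI σ) (vG σ)) →ₗ[T] M)
    (h : ∀ (v : V) (h : sg σ 0 v ∈ Wg V (vI σ) (vG σ)), f ⟨sg σ 0 v, h⟩ = f' ⟨sg σ 0 v, h⟩) :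
    f = f' := by
  refine LinearMap.ext fun x => ?_
  have hx : x = ∑ τ : Vt, ∑ r : I, (⟨sg τ r (x.1 τ r), sgx_mem x.2 τ r⟩ : ↥(Wg V (vI σ) (vG σ))) := by
    apply Subtype.ext
    simp only [AddSubmonoidClass.coe_finsetSum]
    exact eq_sum_sg x.1
  rw [hx, map_sum, map_sum]
  refine Finset.sum_congr rfl fun τ _ => ?_
  rw [map_sum, map_sum]
  refine Finset.sum_congr rfl fun r _ => ?_
  by_cases h0 : x.1 τ r = 0
  · have : (⟨sg τ r (x.1 τ r), sgx_mem x.2 τ r⟩ : ↥(Wg V (vI σ) (vG σ))) = 0 := by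
      apply Subtype.ext
      funext τ' r'
      show (if τ' = τ ∧ r' = r then x.1 τ r else 0) = 0
      split_ifs
      · exact h0
      · rfl
    rw [this, map_zero, map_zero]
  · have h1 := x.2 τ r h0
    obtain ⟨t, ht⟩ := exE' hL τ σ r h1.1 h1.2
    have h2 : (⟨sg τ r (x.1 τ r), sgx_mem x.2 τ r⟩ : ↥(Wg V (vI σ) (vG σ))) =
        t • ⟨sg σ 0 (x.1 τ r), sg0_mem'' σ _⟩ := by
      apply Subtype.ext
      exact (smE' hL t τ σ r ht _).symm
    rw [h2, map_smul, map_smul, h]

end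

theorem sec' (hL : S_LWS) (σ : Vt) : ∃ s : ↥(Wg ℚ (vI σ) (vG σ)) →ₗ[T] T,
    ∀ x : ↥(Wg ℚ (vI σ) (vG σ)), s x • (sg σ 0 1 : W ℚ) = x.1 := by
  classical
  let E : Vt → I → T := fun τ r =>
    if h : sI τ r = vI σ ∧ sG τ r = vG σ then (exE' hL τ σ r h.1 h.2).choose else 0
  have hE : ∀ τ r, (sI τ r = vI σ ∧ sG τ r = vG σ) → IsE (E τ r) τ σ r := by
    intro τ r h
    simp only [E, dif_pos h]
    exact (exE' hL τ σ r h.1 h.2).choose_spec
  have hE0 : ∀ τ r, ¬ (sI τ r = vI σ ∧ sG τ r = vG σ) → E τ r = 0 := by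
    intro τ r h
    simp only [E, dif_neg h]
  let s : ↥(Wg ℚ (vI σ) (vG σ)) → T := fun x => ∑ τ : Vt, ∑ r : I, (x.1 τ r) • E τ r
  have hs1 : ∀ x, s x • (sg σ 0 1 : W ℚ) = x.1 := by
    intro x
    conv_rhs => rw [eq_sum_sg x.1]
    simp only [s, Finset.sum_smul]
    refine Finset.sum_congr rfl fun τ _ => Finset.sum_congr rfl fun r _ => ?_
    rw [smul_assoc]
    by_cases h : sI τ r = vI σ ∧ sG τ r = vG σ
    · rw [smE' hL (E τ r) τ σ r (hE τ r h)]
      funext τ' r'
      show x.1 τ r * (if τ' = τ ∧ r' = r then 1 else 0) = if τ' = τ ∧ r' = r then x.1 τ r else 0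
      split_ifs <;> simp
    · have h0 : x.1 τ r = 0 := by
        by_contra hne
        exact h (x.2 τ r hne)
      rw [h0, zero_smul]
      funext τ' r'
      show (0 : ℚ) = if τ' = τ ∧ r' = r then 0 else 0
      split_ifs <;> rfl
  have hs2 : ∀ x (σ' : Vt), σ' ≠ σ → s x • (sg σ' 0 1 : W ℚ) = 0 := by
    intro x σ' hne
    simp only [s, Finset.sum_smul]
    refine Finset.sum_eq_zero fun τ _ => Finset.sum_eq_zero fun r _ => ?_
    rw [smul_assoc]
    have : E τ r • (sg σ' 0 1 : W ℚ) = 0 := by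
      by_cases h : sI τ r = vI σ ∧ sG τ r = vG σ
      · funext τ' r'
        rw [smul_sg, hE τ r h, if_neg (fun h => hne h.2)]
        exact zero_smul _ _
      · rw [hE0 τ r h, zero_smul]
    rw [this, smul_zero]
  refine ⟨{ toFun := s, map_add' := ?_, map_smul' := ?_ }, hs1⟩
  · intro x y
    refine uniq' hL _ _ fun σ' => ?_
    by_cases h : σ' = σ
    · subst h
      rw [add_smul, hs1, hs1, hs1]
      rfl
    · rw [add_smul, hs2 _ _ h, hs2 _ _ h, hs2 _ _ h, add_zero]
  · intro t x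
    refine uniq' hL _ _ fun σ' => ?_
    rw [RingHom.id_apply, smul_eq_mul, mul_smul]
    by_cases h : σ' = σ
    · subst h
      rw [hs1, hs1]
      rfl
    · rw [hs2 _ _ h, hs2 _ _ h, smul_zero]

/-- TST -/
theorem tst (hL : S_LWS) : S_TST where
  exE := exE' hL
  smE t τ σ r ht _V _ _ v := smE' hL t τ σ r ht v
  uniq := uniq' hL
  gen _V _ _ σ M _ _ f f' h := gen' hL σ M f f' h
  sg_mem _V _ _ τ r v := sg_mem' τ r v
  sec := sec' hL

end Run7.h632.Nak
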