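import Pool.Agent.Run7.h632.Nak.XCL

/-!
Piece XCL: the `T`-linear maps `Wg V i g → X`, conclusion.
-/

set_option autoImplicit false

namespace Run7.h632.Nak

open Run7.h433.Nak

theorem W0 : Words 0 1 ![0] ![1] where
  val k r := by fin_cases k; exact v_1 r
  inS k := by fin_cases k; simp
  inj := fun a b _ => Subsingleton.elim a b
  crit := by decide +kernel
  all := by decide +kernel

theorem W1 : Words 1 1 ![16] ![mB] where
  val k r := by fin_cases k; exact v_B r
  inS k := by fin_cases k; simp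
  inj := fun a b _ => Subsingleton.elim a b
  crit := by decide +kernel
  all := by decide +kernel

theorem W2 : Words 2 2 ![8, 4] ![mF, mX] where
  val k r := by
    fin_cases k
    · exact v_F r
    · exact v_X r
  inS k := by fin_cases k <;> simp
  inj := by decide
  crit := by decide +kernel
  all := by decide +kernel

theorem W3' : Words 3 2 ![24, 20] ![mF * mB, mX * mB] where
  val k r := by
    fin_cases k
    · exact v_FB r
    · exact v_XB r
  inS k := by fin_cases k <;> simp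
  inj := by decide
  crit := by decide +kernel
  all := by decide +kernel

theorem W4 : Words 4 1 ![12] ![mX * mF] where
  val k r := by fin_cases k; exact v_XF r
  inS k := by fin_cases k; simp
  inj := fun a b _ => Subsingleton.elim a b
  crit := by decide +kernel
  all := by decide +kernel

theorem W5 : Words 5 1 ![28] ![mX * mF * mB] where
  val k r := by fin_cases k; exact v_XFB r
  inS k := by fin_cases k; simp
  inj := fun a b _ => Subsingleton.elim a b
  crit := by decide +kernel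
  all := by decide +kernel

theorem Wy (σ : Vt) (h : ∀ r : I, (r : ℕ) < 32 → (r : ℕ) % 4 = 0 → sI σ r = 0 → sG σ r ≠ 0) :
    Words σ 0 ![] ![] where
  val k := k.elim0
  inS k := k.elim0
  inj := fun a => a.elim0
  crit k := k.elim0
  all r h1 h2 h3 h4 := absurd h4 (h r h1 h2 h3)

section

variable {V : Type} [AddCommGroup V] [Module ℚ V]

theorem ex1 (hT : S_TST) (hK : S_XKR) (hX : S_XRL) {σ : Vt} {w : I} {s : Matrix I I ℚ}
    (hw : Words σ 1 ![w] ![s]) (i : ZMod 2) (g : ℤ) (hi : (vI σ : ZMod 2) = i) (hg : vG σ = g)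
    (f : ↥(Wg V i g) →ₗ[T] X) : ∃ ψ : V →ₗ[ℚ] Vm 0, ∀ x, f x = th s ψ x.1 := by
  subst hi hg
  obtain ⟨ψ, h⟩ := exists_gen hT hK hX hw f
  refine ⟨ψ 0, fun x => ?_⟩
  rw [h x, Fin.sum_univ_one]
  rfl

theorem ex2 (hT : S_TST) (hK : S_XKR) (hX : S_XRL) {σ : Vt} {w w' : I} {s s' : Matrix I I ℚ}
    (hw : Words σ 2 ![w, w'] ![s, s']) (i : ZMod 2) (g : ℤ) (hi : (vI σ : ZMod 2) = i)
    (hg : vG σ = g) (f : ↥(Wg V i g) →ₗ[T] X) :
    ∃ ψ ψ' : V →ₗ[ℚ] Vm 0, ∀ x, f x = th s ψ x.1 + th s' ψ' x.1 := by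
  subst hi hg
  obtain ⟨ψ, h⟩ := exists_gen hT hK hX hw f
  refine ⟨ψ 0, ψ 1, fun x => ?_⟩
  rw [h x, Fin.sum_univ_two]
  rfl

theorem ex0 (hT : S_TST) (hK : S_XKR) (hX : S_XRL) (σ : Vt)
    (hw : Words σ 0 ![] ![]) (i : ZMod 2) (g : ℤ) (hi : (vI σ : ZMod 2) = i) (hg : vG σ = g)
    (f : ↥(Wg V i g) →ₗ[T] X) : f = 0 := by
  subst hi hg
  obtain ⟨ψ, h⟩ := exists_gen hT hK hX hw f
  refine LinearMap.ext fun x => ?_
  rw [h x]
  rfl

theorem un1 (hK : S_XKR) {σ : Vt} {w : I} {s : Matrix I I ℚ}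
    (hw : Words σ 1 ![w] ![s]) (i : ZMod 2) (g : ℤ) (hi : (vI σ : ZMod 2) = i) (hg : vG σ = g)
    (ψ : V →ₗ[ℚ] Vm 0) (h : ∀ x ∈ Wg V i g, th s ψ x = 0) : ψ = 0 := by
  subst hi hg
  refine unique_gen hK hw ![ψ] (fun x hx => ?_) 0
  rw [Fin.sum_univ_one]
  exact h x hx

theorem un2 (hK : S_XKR) {σ : Vt} {w w' : I} {s s' : Matrix I I ℚ}
    (hw : Words σ 2 ![w, w'] ![s, s']) (i : ZMod 2) (g : ℤ) (hi : (vI σ : ZMod 2) = i)
    (hg : vG σ = g) (ψ ψ' : V →ₗ[ℚ] Vm 0) (h : ∀ x ∈ Wg V i g, th s ψ x + th s' ψ' x = 0) :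
    ψ = 0 ∧ ψ' = 0 := by
  subst hi hg
  have key := unique_gen hK hw ![ψ, ψ'] (fun x hx => by
    rw [Fin.sum_univ_two]
    exact h x hx)
  exact ⟨key 0, key 1⟩

theorem zmod2 (i : ZMod 2) : i = 0 ∨ i = 1 := by
  revert i
  decide

theorem xcl (hT : S_TST) (hK : S_XKR) (hX : S_XRL) : S_XCL := fun V _ _ =>
  { c00 := fun f => ex1 hT hK hX W0 0 0 (by decide) (by decide) f
    c10 := fun f => ex1 hT hK hX W1 1 0 (by decide) (by decide) f
    c02 := fun f => ex2 hT hK hX W2 0 2 (by decide) (by decide) f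
    c12 := fun f => ex2 hT hK hX W3' 1 2 (by decide) (by decide) f
    c04 := fun f => ex1 hT hK hX W4 0 4 (by decide) (by decide) f
    c14 := fun f => ex1 hT hK hX W5 1 4 (by decide) (by decide) f
    cy := fun i g hg f => by
      rcases hg with rfl | rfl | rfl
      · rcases zmod2 i with rfl | rfl
        · exact ex0 hT hK hX 6 (Wy 6 (by decide +kernel)) 0 (-3) (by decide) (by decide) f
        · exact ex0 hT hK hX 7 (Wy 7 (by decide +kernel)) 1 (-3) (by decide) (by decide) f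
      · rcases zmod2 i with rfl | rfl
        · exact ex0 hT hK hX 8 (Wy 8 (by decide +kernel)) 0 (-1) (by decide) (by decide) f
        · exact ex0 hT hK hX 9 (Wy 9 (by decide +kernel)) 1 (-1) (by decide) (by decide) f
      · rcases zmod2 i with rfl | rfl
        · exact ex0 hT hK hX 10 (Wy 10 (by decide +kernel)) 0 1 (by decide) (by decide) f
        · exact ex0 hT hK hX 11 (Wy 11 (by decide +kernel)) 1 1 (by decide) (by decide) f
    u00 := fun ψ h => un1 hK W0 0 0 (by decide) (by decide) ψ h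
    u10 := fun ψ h => un1 hK W1 1 0 (by decide) (by decide) ψ h
    u02 := fun ψ ψ' h => un2 hK W2 0 2 (by decide) (by decide) ψ ψ' h
    u12 := fun ψ ψ' h => un2 hK W3' 1 2 (by decide) (by decide) ψ ψ' h
    u04 := fun ψ h => un1 hK W4 0 4 (by decide) (by decide) ψ h
    u14 := fun ψ h => un1 hK W5 1 4 (by decide) (by decide) ψ h }

end

end Run7.h632.Nak
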