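import Pool.Agent.Run7.h632.Nak.XRL
import Pool.Agent.Run7.h632.Nak.THR

/-!
Piece XCL: the `T`-linear maps `Wg V i g → X`.
-/

set_option autoImplicit false

namespace Run7.h632.Nak

open Run7.h433.Nak

/-! ### values of the words on the unit -/

theorem val_word (w : List ℕ) (n : ℕ)
    (h : ((List.range 128).all fun i => cf (rowW w [(1, 0)]) i == if i = n then 1 else 0) = true)
    (r : I) : (w.map mt).prod r 0 = if (r : ℕ) = n then 1 else 0 := by
  rw [List.all_eq_true] at h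
  have h1 := h r (List.mem_range.2 r.isLt)
  have h2 := prod_apply w 1 r 0
  have h3 : cf (rowW w [(1, 0)]) r = if (r : ℕ) = n then 1 else 0 := by simpa using h1
  have h4 : ((0 : I) : ℕ) = 0 := rfl
  rw [h4, h3, Int.cast_one, one_mul] at h2
  rw [← h2]
  split_ifs <;> simp

theorem v_1 (r : I) : (1 : Matrix I I ℚ) r 0 = if (r : ℕ) = 0 then 1 else 0 := by
  simpa using val_word [] 0 (by decide +kernel) r
theorem v_B (r : I) : mB r 0 = if (r : ℕ) = 16 then 1 else 0 := by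
  simpa [mB] using val_word [1] 16 (by decide +kernel) r
theorem v_F (r : I) : mF r 0 = if (r : ℕ) = 8 then 1 else 0 := by
  simpa [mF] using val_word [3] 8 (by decide +kernel) r
theorem v_X (r : I) : mX r 0 = if (r : ℕ) = 4 then 1 else 0 := by
  simpa [mX] using val_word [4] 4 (by decide +kernel) r
theorem v_FB (r : I) : (mF * mB) r 0 = if (r : ℕ) = 24 then 1 else 0 := by
  simpa [mF, mB] using val_word [3, 1] 24 (by decide +kernel) r
theorem v_XB (r : I) : (mX * mB) r 0 = if (r : ℕ) = 20 then 1 else 0 := by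
  simpa [mX, mB] using val_word [4, 1] 20 (by decide +kernel) r
theorem v_XF (r : I) : (mX * mF) r 0 = if (r : ℕ) = 12 then 1 else 0 := by
  simpa [mX, mF] using val_word [4, 3] 12 (by decide +kernel) r
theorem v_XFB (r : I) : (mX * mF * mB) r 0 = if (r : ℕ) = 28 then 1 else 0 := by
  simpa [mX, mF, mB, mul_assoc] using val_word [4, 3, 1] 28 (by decide +kernel) r

section

variable {V V' : Type} [AddCommGroup V] [Module ℚ V] [AddCommGroup V'] [Module ℚ V']

theorem oL_sg (ψ : V →ₗ[ℚ] V') (τ : Vt) (r : I) (v : V) : oL ψ (sg τ r v) = sg τ r (ψ v) := by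
  funext τ' r'
  show ψ (if τ' = τ ∧ r' = r then v else 0) = if τ' = τ ∧ r' = r then ψ v else 0
  split_ifs <;> simp

theorem oM_sg (s : Matrix I I ℚ) (n : I) (hs : ∀ r : I, s r 0 = if (r : ℕ) = n then 1 else 0)
    (τ : Vt) (v : V) : oM s (sg τ 0 v) = sg τ n v := by
  funext τ' r'
  rw [oM_apply]
  show ∑ t : I, s r' t • (if τ' = τ ∧ t = 0 then v else 0) = if τ' = τ ∧ r' = n then v else 0
  rw [Finset.sum_eq_single 0]
  · rw [hs r']
    by_cases h1 : τ' = τ
    · by_cases h2 : r' = n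
      · rw [if_pos (by rw [h2]), if_pos ⟨h1, rfl⟩, if_pos ⟨h1, h2⟩, one_smul]
      · rw [if_neg (fun h => h2 (Fin.ext h)), zero_smul, if_neg (fun h => h2 h.2)]
    · rw [if_neg (fun h : τ' = τ ∧ (0 : I) = 0 => h1 h.1), smul_zero, if_neg (fun h => h1 h.1)]
  · intro t _ ht
    rw [if_neg (fun h => ht h.2), smul_zero]
  · simp

theorem th_sg (s : Matrix I I ℚ) (n : I) (hs : ∀ r : I, s r 0 = if (r : ℕ) = n then 1 else 0)
    (ψ : V →ₗ[ℚ] Vm 0) (τ : Vt) (v : V) : th s ψ (sg τ 0 v) = xi (sg τ n (ψ v)) := by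
  unfold th
  rw [oL_sg, oM_sg s n hs]

theorem sI0 (σ : Vt) : sI σ 0 = vI σ := by simp [sI, nI]
theorem sG0 (σ : Vt) : sG σ 0 = vG σ := by simp [sG, nG]

theorem sg0_mem (σ : Vt) (v : V) : sg σ 0 v ∈ Wg V (vI σ) (vG σ) := by
  have := sg_mem' σ 0 v
  rwa [sI0, sG0] at this

theorem sg_add (τ : Vt) (r : I) (v w : V) : sg τ r (v + w) = sg τ r v + sg τ r w := by
  funext τ' r'
  show (if τ' = τ ∧ r' = r then v + w else 0) = (if τ' = τ ∧ r' = r then v else 0) +
    (if τ' = τ ∧ r' = r then w else 0)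
  split_ifs <;> simp

theorem sg_smul (τ : Vt) (r : I) (c : ℚ) (v : V) : sg τ r (c • v) = c • sg τ r v := by
  funext τ' r'
  show (if τ' = τ ∧ r' = r then c • v else 0) = c • (if τ' = τ ∧ r' = r then v else 0)
  split_ifs <;> simp

theorem Wg_smul {i : ZMod 2} {g : ℤ} {x : W V} (hx : x ∈ Wg V i g) (c : ℚ) : c • x ∈ Wg V i g := by
  intro τ r h
  refine hx τ r fun h0 => h ?_
  show c • x τ r = 0
  rw [h0, smul_zero]

end

/-! ### representatives -/

/-- a representative -/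
noncomputable def rep (hX : S_XRL) (ξ : X) : W (Vm 0) := (hX.onto ξ).choose

theorem rep_mem (hX : S_XRL) (ξ : X) : rep hX ξ ∈ Wg (Vm 0) 0 0 := (hX.onto ξ).choose_spec.1
theorem rep_xi (hX : S_XRL) (ξ : X) : xi (rep hX ξ) = ξ := (hX.onto ξ).choose_spec.2

theorem crit_eq (hK : S_XKR) {x y : W (Vm 0)} (hx : x ∈ Wg (Vm 0) 0 0) (hy : y ∈ Wg (Vm 0) 0 0)
    (h : xi x = xi y) (τ : Vt) (r : I) (h1 : (r : ℕ) < 32) (h2 : (r : ℕ) % 4 = 0) :
    x τ r = y τ r := by
  have h3 := (hK (x - y) (sub_mem hx hy)).1 (by rw [map_sub, h, sub_self]) τ r h1 h2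
  exact sub_eq_zero.1 h3

theorem eq_crit (hK : S_XKR) {x y : W (Vm 0)} (hx : x ∈ Wg (Vm 0) 0 0) (hy : y ∈ Wg (Vm 0) 0 0)
    (h : ∀ (τ : Vt) (r : I), (r : ℕ) < 32 → (r : ℕ) % 4 = 0 → x τ r = y τ r) : xi x = xi y := by
  have h3 := (hK (x - y) (sub_mem hx hy)).2 (fun τ r h1 h2 => sub_eq_zero.2 (h τ r h1 h2))
  rwa [map_sub, sub_eq_zero] at h3

/-- data of the words at the vertex `σ` -/
structure Words (σ : Vt) (n : ℕ) (wd : Fin n → I) (s : Fin n → Matrix I I ℚ) : Prop where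
  val : ∀ k r, s k r 0 = if (r : ℕ) = wd k then 1 else 0
  inS : ∀ k, s k ∈ ({1, mB, mF, mX, mF * mB, mX * mB, mX * mF, mX * mF * mB} :
    Set (Matrix I I ℚ))
  inj : Function.Injective wd
  crit : ∀ k, (wd k : ℕ) < 32 ∧ (wd k : ℕ) % 4 = 0 ∧ sI σ (wd k) = 0 ∧ sG σ (wd k) = 0
  all : ∀ r : I, (r : ℕ) < 32 → (r : ℕ) % 4 = 0 → sI σ r = 0 → sG σ r = 0 → ∃ k, r = wd k

section main

variable {V : Type} [AddCommGroup V] [Module ℚ V]

theorem sum_mem_Wg {σ : Vt} {n : ℕ} {wd : Fin n → I} {s : Fin n → Matrix I I ℚ}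
    (hw : Words σ n wd s) (u : Fin n → Vm 0) : ∑ k, sg σ (wd k) (u k) ∈ Wg (Vm 0) 0 0 := by
  refine sum_mem fun k _ => ?_
  have := sg_mem' σ (wd k) (u k)
  rwa [(hw.crit k).2.2.1, (hw.crit k).2.2.2] at this

theorem sum_sg_apply {σ : Vt} {n : ℕ} (wd : Fin n → I) (u : Fin n → Vm 0) (τ : Vt) (r : I) :
    (∑ k, sg σ (wd k) (u k) : W (Vm 0)) τ r = ∑ k, if τ = σ ∧ r = wd k then u k else 0 := by
  have h1 : ∀ f : Fin n → W (Vm 0), (∑ k, f k : W (Vm 0)) τ r = ∑ k, f k τ r := by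
    intro f
    have h2 : (∑ k, f k : Vt → I → Vm 0) τ = ∑ k, f k τ := Finset.sum_apply _ _ _
    have h3 : (∑ k, f k τ : I → Vm 0) r = ∑ k, f k τ r := Finset.sum_apply _ _ _
    rw [← h3, ← h2]
    rfl
  rw [h1]
  rfl

theorem unique_gen (hK : S_XKR) {σ : Vt} {n : ℕ} {wd : Fin n → I} {s : Fin n → Matrix I I ℚ}
    (hw : Words σ n wd s) (ψ : Fin n → (V →ₗ[ℚ] Vm 0))
    (h : ∀ x ∈ Wg V (vI σ) (vG σ), ∑ k, th (s k) (ψ k) x = 0) (k : Fin n) : ψ k = 0 := by
  refine LinearMap.ext fun v => ?_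
  have h1 := h _ (sg0_mem σ v)
  simp only [th_sg _ _ (hw.val _)] at h1
  rw [← map_sum] at h1
  have h2 := (hK _ (sum_mem_Wg hw fun k => ψ k v)).1 h1 σ (wd k) (hw.crit k).1 (hw.crit k).2.1
  rw [sum_sg_apply, Finset.sum_eq_single k] at h2
  · rw [if_pos ⟨rfl, rfl⟩] at h2
    exact h2
  · intro l _ hl
    exact if_neg fun h => hl (hw.inj h.2.symm)
  · simp

/-- the `T`-linear map given by `th` -/
noncomputable def thT (hX : S_XRL) (S : SL V) (s : Matrix I I ℚ)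
    (hs : s ∈ ({1, mB, mF, mX, mF * mB, mX * mB, mX * mF, mX * mF * mB} : Set (Matrix I I ℚ)))
    (ψ : V →ₗ[ℚ] Vm 0) (i : ZMod 2) (g : ℤ) : ↥(Wg V i g) →ₗ[T] X where
  toFun x := th s ψ x.1
  map_add' x y := (thr1 hX S ψ).addx s x.1 y.1
  map_smul' t x := (thr1 hX S ψ).tlin s hs t x.1

/-- the trivial representation -/
def trivSL (V : Type) [AddCommGroup V] [Module ℚ V] : SL V where
  e := 0
  f := 0
  h := 0
  ef := by simp
  he := by simp
  hf := by simp

theorem exists_gen (hT : S_TST) (hK : S_XKR) (hX : S_XRL) {σ : Vt} {n : ℕ} {wd : Fin n → I}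
    {s : Fin n → Matrix I I ℚ} (hw : Words σ n wd s) (f : ↥(Wg V (vI σ) (vG σ)) →ₗ[T] X) :
    ∃ ψ : Fin n → (V →ₗ[ℚ] Vm 0), ∀ x, f x = ∑ k, th (s k) (ψ k) x.1 := by
  -- the values on the generators
  let a : V → X := fun v => f ⟨sg σ 0 v, sg0_mem σ v⟩
  have ha : ∀ v w, a (v + w) = a v + a w := by
    intro v w
    show f _ = f _ + f _
    rw [← map_add]
    congr 1
    exact Subtype.ext (sg_add σ 0 v w)
  have hc : ∀ (c : ℚ) v, a (c • v) = c • a v := by
    intro c v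
    show f _ = c • f _
    have h1 := map_smul (f.restrictScalars ℚ) c (⟨sg σ 0 v, sg0_mem σ v⟩ : ↥(Wg V (vI σ) (vG σ)))
    refine Eq.trans ?_ h1
    show f _ = f _
    congr 1
    exact Subtype.ext (sg_smul σ 0 c v)
  -- coefficients
  have hradd : ∀ (ξ η : X) (r : I), (r : ℕ) < 32 → (r : ℕ) % 4 = 0 →
      rep hX (ξ + η) σ r = rep hX ξ σ r + rep hX η σ r := by
    intro ξ η r h1 h2
    refine crit_eq hK (rep_mem hX _) (add_mem (rep_mem hX ξ) (rep_mem hX η)) ?_ σ r h1 h2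
    rw [rep_xi, map_add, rep_xi, rep_xi]
  have hrsmul : ∀ (c : ℚ) (ξ : X) (r : I), (r : ℕ) < 32 → (r : ℕ) % 4 = 0 →
      rep hX (c • ξ) σ r = c • rep hX ξ σ r := by
    intro c ξ r h1 h2
    refine crit_eq hK (rep_mem hX _) (Wg_smul (rep_mem hX ξ) c) ?_ σ r h1 h2
    rw [rep_xi, xi_smul, rep_xi]
  let ψ : Fin n → (V →ₗ[ℚ] Vm 0) := fun k =>
    { toFun := fun v => rep hX (a v) σ (wd k)
      map_add' := fun v w => by
        rw [ha, hradd _ _ _ (hw.crit k).1 (hw.crit k).2.1]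
      map_smul' := fun c v => by
        rw [hc, hrsmul _ _ _ (hw.crit k).1 (hw.crit k).2.1]; rfl }
  refine ⟨ψ, ?_⟩
  have hmain : f = ∑ k, thT hX (trivSL V) (s k) (hw.inS k) (ψ k) (vI σ) (vG σ) := by
    refine hT.gen V σ X f _ fun v hv => ?_
    have hsum : (∑ k, thT hX (trivSL V) (s k) (hw.inS k) (ψ k) (vI σ) (vG σ)) ⟨sg σ 0 v, hv⟩ =
        xi (∑ k, sg σ (wd k) (ψ k v)) := by
      rw [LinearMap.sum_apply, map_sum]
      exact Finset.sum_congr rfl fun k _ => th_sg _ _ (hw.val k) _ _ _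
    rw [hsum]
    -- the idempotent
    obtain ⟨t, ht⟩ := hT.exE σ σ 0 (sI0 σ) (sG0 σ)
    have h1 : t • a v = a v := by
      show t • f _ = f _
      rw [← map_smul]
      congr 1
      exact Subtype.ext (hT.smE t σ σ 0 ht V v)
    have h2 : a v = xi (t • rep hX (a v)) := by
      rw [map_smul, rep_xi, h1]
    have h3 : t • rep hX (a v) ∈ Wg (Vm 0) 0 0 := Submodule.smul_mem _ t (rep_mem hX _)
    have h4 : ∀ (τ : Vt) (r : I), τ ≠ σ → (t • rep hX (a v)) τ r = 0 := by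
      intro τ r hne
      rw [smul_def, act_apply]
      refine Finset.sum_eq_zero fun q _ => ?_
      rw [ht, if_neg (fun h => hne h.1), zero_smul]
    have h5 : ∀ (r : I), (r : ℕ) < 32 → (r : ℕ) % 4 = 0 →
        (t • rep hX (a v)) σ r = rep hX (a v) σ r := by
      intro r hr1 hr2
      exact crit_eq hK h3 (rep_mem hX _) (by rw [← h2, rep_xi]) σ r hr1 hr2
    show a v = _
    rw [h2]
    refine eq_crit hK h3 (sum_mem_Wg hw fun k => ψ k v) ?_
    intro τ r hr1 hr2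
    rw [sum_sg_apply]
    by_cases hτ : τ = σ
    · subst hτ
      rw [h5 r hr1 hr2]
      by_cases hr3 : sI τ r = 0 ∧ sG τ r = 0
      · obtain ⟨k, rfl⟩ := hw.all r hr1 hr2 hr3.1 hr3.2
        rw [Finset.sum_eq_single k]
        · rw [if_pos ⟨rfl, rfl⟩]
          rfl
        · intro l _ hl
          exact if_neg fun h => hl (hw.inj h.2.symm)
        · simp
      · have h6 : rep hX (a v) τ r = 0 := by
          by_contra hne
          exact hr3 (rep_mem hX (a v) τ r hne)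
        rw [h6]
        symm
        refine Finset.sum_eq_zero fun k _ => if_neg ?_
        rintro ⟨-, rfl⟩
        exact hr3 (hw.crit k).2.2
    · rw [h4 τ r hτ]
      exact (Finset.sum_eq_zero fun k _ => if_neg fun h => hτ h.1).symm
  intro x
  have := congrArg (fun F : ↥(Wg V (vI σ) (vG σ)) →ₗ[T] X => F x) hmain
  simp only [LinearMap.sum_apply] at this
  exact this

end main

end Run7.h632.Nak
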