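import Pool.Agent.Run7.h632.Nak.XRL
import Pool.Agent.Run7.h632.Nak.XCL

/-!
Piece XKR: the kernel of `xi`.
-/

set_option autoImplicit false

namespace Run7.h632.Nak

open Run7.h433.Nak

/-- Boolean form of `row n j = [(1, r)]` -/
def isE1 (n j r : ℕ) : Bool := match row n j with
  | [p] => p.1 == 1 && p.2 == r
  | _ => false

theorem isE1_spec {n j r : ℕ} (h : isE1 n j r = true) : row n j = [(1, r)] := by
  unfold isE1 at h
  split at h
  · next p hp =>
    rw [Bool.and_eq_true, beq_iff_eq, beq_iff_eq] at h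
    rw [hp]
    obtain ⟨a, b⟩ := p
    simp only at h
    rw [h.1, h.2]
  · exact absurd h (by simp)

theorem chkZ : ((List.range 128).all fun r => r % 2 == 0 || isE1 2 (r - 1) r) = true := by
  decide +kernel
theorem chkA : ((List.range 128).all fun r => !(r % 4 == 2) || isE1 0 (r - 2) r) = true := by
  decide +kernel
theorem chkY : ((List.range 32).all fun r => !(r % 4 == 0) ||
    (isE1 5 r (r + 32) && isE1 6 r (r + 64) && isE1 6 (r + 32) (r + 96))) = true := by
  decide +kernel
theorem chk0 : ([0, 2, 5, 6].all fun n => (List.range 128).all fun s => (List.range 32).all fun r =>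
    !(r % 4 == 0) || cf (row n s) r == 0) = true := by
  decide +kernel

theorem mt_zero {n : ℕ} (hn : n ∈ [0, 2, 5, 6]) (r s : I) (h1 : (r : ℕ) < 32)
    (h2 : (r : ℕ) % 4 = 0) : mt n r s = 0 := by
  have h := chk0
  rw [List.all_eq_true] at h
  have h3 := h n hn
  rw [List.all_eq_true] at h3
  have h4 := h3 s (List.mem_range.2 s.isLt)
  rw [List.all_eq_true] at h4
  have h5 := h4 r (List.mem_range.2 h1)
  have h6 : cf (row n s) r = 0 := by simpa [h2] using h5
  rw [Run7.h433.Nak.mt, h6, Int.cast_zero]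

section

variable {V V' : Type} [AddCommGroup V] [Module ℚ V] [AddCommGroup V'] [Module ℚ V']

theorem oM_zero_at {n : ℕ} (hn : n ∈ [0, 2, 5, 6]) (x : W V) (τ : Vt) (r : I) (h1 : (r : ℕ) < 32)
    (h2 : (r : ℕ) % 4 = 0) : oM (mt n) x τ r = 0 := by
  rw [oM_apply]
  refine Finset.sum_eq_zero fun s _ => ?_
  rw [mt_zero hn r s h1 h2, zero_smul]

theorem oM_row {n : ℕ} {j r : I} (h : isE1 n j r = true) (τ : Vt) (v : V) :
    oM (mt n) (sg τ j v) = sg τ r v := by
  funext τ' r'
  rw [oM_apply]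
  show ∑ t : I, mt n r' t • (if τ' = τ ∧ t = j then v else 0) = if τ' = τ ∧ r' = r then v else 0
  rw [Finset.sum_eq_single j]
  · rw [Run7.h433.Nak.mt, isE1_spec h, cf, cf, add_zero]
    by_cases h1 : τ' = τ
    · by_cases h2 : r' = r
      · subst h2
        rw [if_pos rfl, if_pos ⟨h1, rfl⟩, if_pos ⟨h1, rfl⟩, Int.cast_one, one_smul]
      · rw [if_neg (fun h => h2 (Fin.ext h.symm)), Int.cast_zero, zero_smul,
          if_neg (fun h => h2 h.2)]
    · rw [if_neg (fun h : τ' = τ ∧ j = j => h1 h.1), smul_zero, if_neg (fun h => h1 h.1)]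
  · intro t _ ht
    rw [if_neg (fun h => ht h.2), smul_zero]
  · simp

end

theorem xi_sg (hX : S_XRL) (τ : Vt) (r : I) (v : Vm 0) (h : ¬ ((r : ℕ) < 32 ∧ (r : ℕ) % 4 = 0)) :
    xi (sg τ r v) = 0 := by
  have hr := r.isLt
  by_cases h1 : (r : ℕ) % 2 = 1
  · have hc := chkZ
    rw [List.all_eq_true] at hc
    have h2 := hc r (List.mem_range.2 hr)
    have h3 : isE1 2 ((⟨(r : ℕ) - 1, by omega⟩ : I) : ℕ) r = true := by simpa [h1] using h2
    rw [← oM_row h3 τ v]
    exact hX.Z _
  · by_cases h2 : (r : ℕ) % 4 = 2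
    · have hc := chkA
      rw [List.all_eq_true] at hc
      have h4 := hc r (List.mem_range.2 hr)
      have h3 : isE1 0 ((⟨(r : ℕ) - 2, by omega⟩ : I) : ℕ) r = true := by simpa [h2] using h4
      rw [← oM_row h3 τ v]
      exact hX.A _
    · have h4 : (r : ℕ) % 4 = 0 := by omega
      have h5 : 32 ≤ (r : ℕ) := by
        by_contra hcon
        exact h ⟨by omega, h4⟩
      have hc := chkY
      rw [List.all_eq_true] at hc
      rcases lt_or_ge (r : ℕ) 64 with h6 | h6
      · have h7 := hc ((r : ℕ) - 32) (List.mem_range.2 (by omega))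
        have h8 : ((r : ℕ) - 32) % 4 = 0 := by omega
        have h9 : (r : ℕ) - 32 + 32 = r := by omega
        simp only [h8, beq_self_eq_true, Bool.not_true, Bool.false_or, Bool.and_eq_true, h9] at h7
        have h3 : isE1 5 ((⟨(r : ℕ) - 32, by omega⟩ : I) : ℕ) r = true := h7.1.1
        rw [← oM_row h3 τ v]
        exact hX.Y1 _
      · rcases lt_or_ge (r : ℕ) 96 with h7 | h7
        · have h10 := hc ((r : ℕ) - 64) (List.mem_range.2 (by omega))
          have h8 : ((r : ℕ) - 64) % 4 = 0 := by omega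
          have h9 : (r : ℕ) - 64 + 64 = r := by omega
          simp only [h8, beq_self_eq_true, Bool.not_true, Bool.false_or, Bool.and_eq_true, h9] at h10
          have h3 : isE1 6 ((⟨(r : ℕ) - 64, by omega⟩ : I) : ℕ) r = true := h10.1.2
          rw [← oM_row h3 τ v]
          exact hX.Y2 _
        · have h10 := hc ((r : ℕ) - 96) (List.mem_range.2 (by omega))
          have h8 : ((r : ℕ) - 96) % 4 = 0 := by omega
          have h9 : (r : ℕ) - 96 + 96 = r := by omega
          have h11 : (r : ℕ) - 96 + 32 = r - 64 := by omega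
          simp only [h8, beq_self_eq_true, Bool.not_true, Bool.false_or, Bool.and_eq_true, h9,
            h11] at h10
          have h3 : isE1 6 ((⟨(r : ℕ) - 64, by omega⟩ : I) : ℕ) r = true := h10.2
          rw [← oM_row h3 τ v]
          exact hX.Y2 _

theorem xkr (hX : S_XRL) : S_XKR := by
  intro x hx
  constructor
  · intro h τ r h1 h2
    unfold xi at h
    rw [LinearMap.comp_apply, Submodule.mkQ_apply, Submodule.Quotient.mk_eq_zero,
      Submodule.mem_comap] at h
    obtain ⟨⟨y, y'⟩, hy, hd⟩ := h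
    rw [dm00] at hd
    have hd' : oa (SV 0) y.1 + oz (SV 0) y.2.1 + ((0 : ℕ) : ℚ) • ok y.2.2 +
        oY (vP 0) (vQ 0) y'.1 = prq (Vm 0) 0 0 x := congrArg (fun p => p.1.1) hd
    rw [prq_of_mem hx, Nat.cast_zero, zero_smul, add_zero] at hd'
    have hcoef := congrFun (congrFun hd' τ) r
    rw [← hcoef]
    have e0 : (SV 0).e = 0 := by
      refine LinearMap.ext fun v => Vm0_ext ?_
      show ((0 : ℕ) + 1 : ℚ) * v.c (0 + 1) = 0
      rw [v.out 1 (by norm_num), mul_zero]
    have f0 : (SV 0).f = 0 := by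
      refine LinearMap.ext fun v => Vm0_ext ?_
      rfl
    have h0 : (SV 0).h = 0 := by
      refine LinearMap.ext fun v => Vm0_ext ?_
      show (((0 : ℕ) : ℚ) - 2 * (0 : ℕ)) * v.c 0 = 0
      simp
    have a1 : oa (SV 0) y.1 τ r = 0 := by
      show oM mA y.1 τ r - (SV 0).e (oM mB y.1 τ r) = 0
      rw [e0, LinearMap.zero_apply, sub_zero]
      exact oM_zero_at (by simp) _ _ _ h1 h2
    have a2 : oz (SV 0) y.2.1 τ r = 0 := by
      show oM mZ y.2.1 τ r - (SV 0).f (oM mF y.2.1 τ r) - (SV 0).h (oM mX y.2.1 τ r) = 0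
      rw [f0, h0, LinearMap.zero_apply, LinearMap.zero_apply, sub_zero, sub_zero]
      exact oM_zero_at (by simp) _ _ _ h1 h2
    have a3 : oY (vP 0) (vQ 0) y'.1 τ r = 0 := by
      show vP 0 (oM mY1 y'.1 τ r) + vQ 0 (oM mY2 y'.1 τ r) = 0
      have b1 : oM mY1 y'.1 τ r = 0 := oM_zero_at (by simp) _ _ _ h1 h2
      have b2 : oM mY2 y'.1 τ r = 0 := oM_zero_at (by simp) _ _ _ h1 h2
      rw [b1, b2, map_zero, map_zero, add_zero]
    show oa (SV 0) y.1 τ r + oz (SV 0) y.2.1 τ r + oY (vP 0) (vQ 0) y'.1 τ r = 0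
    rw [a1, a2, a3, add_zero, add_zero]
  · intro h
    rw [eq_sum_sg x, map_sum]
    refine Finset.sum_eq_zero fun τ _ => ?_
    rw [map_sum]
    refine Finset.sum_eq_zero fun r _ => ?_
    by_cases hc : (r : ℕ) < 32 ∧ (r : ℕ) % 4 = 0
    · rw [h τ r hc.1 hc.2]
      have : sg τ r (0 : Vm 0) = 0 := by
        funext τ' r'
        show (if τ' = τ ∧ r' = r then (0 : Vm 0) else 0) = 0
        split_ifs <;> rfl
      rw [this, map_zero]
    · exact xi_sg hX τ r _ hc

end Run7.h632.Nak
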