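import Pool.Agent.Run7.h433.Nak.Iface

/-!
Piece XRL: relations in the module `X`.
-/

set_option autoImplicit false

namespace Run7.h632.Nak

open Run7.h433.Nak

section general

variable {V V' : Type} [AddCommGroup V] [Module ℚ V] [AddCommGroup V'] [Module ℚ V']

theorem mem_Wg {i : ZMod 2} {g : ℤ} {x : W V} :
    x ∈ Wg V i g ↔ ∀ τ r, x τ r ≠ 0 → sI τ r = i ∧ sG τ r = g := Iff.rfl

theorem prq_mem (i : ZMod 2) (g : ℤ) (x : W V) : prq V i g x ∈ Wg V i g := by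
  intro τ r h
  rw [prq_apply] at h
  by_contra hcon
  exact h (if_neg hcon)

theorem prq_of_mem {i : ZMod 2} {g : ℤ} {x : W V} (h : x ∈ Wg V i g) : prq V i g x = x := by
  funext τ r
  rw [prq_apply]
  split_ifs with hc
  · rfl
  · by_contra hne
    exact hc (h τ r (fun h0 => hne h0.symm))

theorem prq_of_mem_ne {i i' : ZMod 2} {g g' : ℤ} {x : W V} (h : x ∈ Wg V i g)
    (hne : ¬ (i = i' ∧ g = g')) : prq V i' g' x = 0 := by
  funext τ r
  rw [prq_apply]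
  split_ifs with hc
  · by_contra h0
    have := h τ r h0
    exact hne ⟨this.1.symm.trans hc.1, this.2.symm.trans hc.2⟩
  · rfl

theorem sg_mem' (τ : Vt) (r : I) (v : V) : sg τ r v ∈ Wg V (sI τ r) (sG τ r) := by
  intro τ' r' h
  have h' : (if τ' = τ ∧ r' = r then v else 0) ≠ 0 := h
  split_ifs at h' with hc
  · rw [hc.1, hc.2]
    exact ⟨rfl, rfl⟩
  · exact absurd rfl h'

theorem eq_sum_sg (x : W V) : x = ∑ τ : Vt, ∑ r : I, sg τ r (x τ r) := by
  have happ : ∀ (f : Vt → W V) (τ : Vt) (r : I), (∑ σ : Vt, f σ) τ r = ∑ σ : Vt, f σ τ r := by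
    intro f τ r
    have h1 : (∑ σ : Vt, f σ : Vt → I → V) τ = ∑ σ : Vt, f σ τ := Finset.sum_apply _ _ _
    have h2 : (∑ σ : Vt, f σ τ : I → V) r = ∑ σ : Vt, f σ τ r := Finset.sum_apply _ _ _
    rw [← h2, ← h1]
    rfl
  have happ' : ∀ (f : I → W V) (τ : Vt) (r : I), (∑ s : I, f s) τ r = ∑ s : I, f s τ r := by
    intro f τ r
    have h1 : (∑ σ : I, f σ : Vt → I → V) τ = ∑ σ : I, f σ τ := Finset.sum_apply _ _ _
    have h2 : (∑ σ : I, f σ τ : I → V) r = ∑ σ : I, f σ τ r := Finset.sum_apply _ _ _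
    rw [← h2, ← h1]
    rfl
  funext τ r
  rw [happ, Finset.sum_eq_single τ, happ', Finset.sum_eq_single r]
  · exact (if_pos ⟨rfl, rfl⟩).symm
  · intro s _ hs
    exact if_neg (fun h => hs h.2.symm)
  · simp
  · intro σ _ hσ
    rw [happ']
    exact Finset.sum_eq_zero fun s _ => if_neg (fun h => hσ h.1.symm)
  · simp

/-- a homogeneous map commutes with the projections -/
theorem prq_comm (φ : W V →ₗ[ℚ] W V') (c : ZMod 2) (c' : ℤ)
    (hφ : ∀ (i : ZMod 2) (g : ℤ) (x : W V), x ∈ Wg V i g → φ x ∈ Wg V' (i + c) (g + c'))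
    (i : ZMod 2) (g : ℤ) (x : W V) : prq V' (i + c) (g + c') (φ x) = φ (prq V i g x) := by
  have key : ∀ (τ : Vt) (r : I) (v : V),
      prq V' (i + c) (g + c') (φ (sg τ r v)) = φ (prq V i g (sg τ r v)) := by
    intro τ r v
    have h1 := sg_mem' τ r v
    have h2 := hφ _ _ _ h1
    by_cases hc : sI τ r = i ∧ sG τ r = g
    · rw [hc.1, hc.2] at h1 h2
      rw [prq_of_mem h1, prq_of_mem h2]
    · rw [prq_of_mem_ne h1 hc, map_zero]
      refine prq_of_mem_ne h2 ?_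
      rintro ⟨h3, h4⟩
      exact hc ⟨add_right_cancel h3, add_right_cancel h4⟩
  rw [eq_sum_sg x]
  simp only [map_sum]
  exact Finset.sum_congr rfl fun τ _ => Finset.sum_congr rfl fun r _ => key τ r _

end general

/-- the kernel of `xi` -/
theorem xi_eq_zero (x : W (Vm 0)) (y : Zm 0) (hy : y ∈ Fm 0 1)
    (h : dm 0 0 y = ((prq (Vm 0) 0 0 x, 0, 0), 0)) : xi x = 0 := by
  unfold xi
  rw [LinearMap.comp_apply, Submodule.mkQ_apply, Submodule.Quotient.mk_eq_zero,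
    Submodule.mem_comap]
  exact ⟨y, hy, h⟩

theorem dm00 (y : W3 (Vm 0)) (y' : W3 (Vm 1)) : dm 0 0 (y, y') =
    ((oa (SV 0) y.1 + oz (SV 0) y.2.1 + ((0 : ℕ) : ℚ) • ok y.2.2 + oY (vP 0) (vQ 0) y'.1,
      0 + oY (vP 0) (vQ 0) y'.2.1, 0 + oY (vP 0) (vQ 0) y'.2.2), 0) := rfl

theorem oa0 (h : S_VS) (x : W (Vm 0)) : oa (SV 0) x = oM mA x := by
  have : oL (SV 0).e (oM mB x) = 0 := by
    rw [h.e0]; rfl
  rw [oa, LinearMap.sub_apply, LinearMap.comp_apply, this, sub_zero]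

theorem oz0 (h : S_VS) (x : W (Vm 0)) : oz (SV 0) x = oM mZ x := by
  have h1 : oL (SV 0).f (oM mF x) = 0 := by
    rw [h.f0]; rfl
  have h2 : oL (SV 0).h (oM mX x) = 0 := by
    rw [h.h0]; rfl
  rw [oz, LinearMap.sub_apply, LinearMap.sub_apply, LinearMap.comp_apply, LinearMap.comp_apply,
    h1, h2, sub_zero, sub_zero]

/-- section of `∂/∂p` -/
def s1 : Vm 0 →ₗ[ℚ] Vm 1 where
  toFun v := Vm.mk (fun k => if k = 0 then v.c 0 else 0) (fun k hk => if_neg (by omega))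
  map_add' x y := by
    refine Vm.ext fun k => ?_
    show (if k = 0 then x.c 0 + y.c 0 else 0) = (if k = 0 then x.c 0 else 0) +
      (if k = 0 then y.c 0 else 0)
    split_ifs <;> simp
  map_smul' c x := by
    refine Vm.ext fun k => ?_
    show (if k = 0 then c * x.c 0 else 0) = c * (if k = 0 then x.c 0 else 0)
    split_ifs <;> simp

/-- section of `∂/∂q` -/
def s2 : Vm 0 →ₗ[ℚ] Vm 1 where
  toFun v := Vm.mk (fun k => if k = 1 then v.c 0 else 0) (fun k hk => if_neg (by omega))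
  map_add' x y := by
    refine Vm.ext fun k => ?_
    show (if k = 1 then x.c 0 + y.c 0 else 0) = (if k = 1 then x.c 0 else 0) +
      (if k = 1 then y.c 0 else 0)
    split_ifs <;> simp
  map_smul' c x := by
    refine Vm.ext fun k => ?_
    show (if k = 1 then c * x.c 0 else 0) = c * (if k = 1 then x.c 0 else 0)
    split_ifs <;> simp

theorem Vm0_ext {x y : Vm 0} (h : x.c 0 = y.c 0) : x = y := by
  refine Vm.ext fun k => ?_
  rcases Nat.eq_zero_or_pos k with rfl | hk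
  · exact h
  · rw [x.out k hk, y.out k hk]

theorem P_s1 : vP 0 ∘ₗ s1 = LinearMap.id := by
  refine LinearMap.ext fun v => Vm0_ext ?_
  show ((0 : ℕ) + 1 - (0 : ℕ) : ℚ) * (if (0 : ℕ) = 0 then v.c 0 else 0) = v.c 0
  simp

theorem Q_s1 : vQ 0 ∘ₗ s1 = 0 := by
  refine LinearMap.ext fun v => Vm0_ext ?_
  show ((0 : ℕ) + 1 : ℚ) * (if (0 + 1 : ℕ) = 0 then v.c 0 else 0) = 0
  simp

theorem P_s2 : vP 0 ∘ₗ s2 = 0 := by
  refine LinearMap.ext fun v => Vm0_ext ?_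
  show ((0 : ℕ) + 1 - (0 : ℕ) : ℚ) * (if (0 : ℕ) = 1 then v.c 0 else 0) = 0
  simp

theorem Q_s2 : vQ 0 ∘ₗ s2 = LinearMap.id := by
  refine LinearMap.ext fun v => Vm0_ext ?_
  show ((0 : ℕ) + 1 : ℚ) * (if (0 + 1 : ℕ) = 1 then v.c 0 else 0) = v.c 0
  simp

theorem xrl (hg : S_GRD) (h : S_VS) : S_XRL where
  A x := by
    have hG := hg (Vm 0)
    refine xi_eq_zero _ ((prq (Vm 0) 1 0 x, 0, 0), (0, 0, 0)) ?_ ?_
    · refine ⟨⟨?_, ⟨zero_mem _, fun _ => rfl⟩, ⟨zero_mem _, fun _ => rfl⟩⟩,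
        ⟨zero_mem _, ⟨zero_mem _, fun _ => rfl⟩, ⟨zero_mem _, fun _ => rfl⟩⟩⟩
      have := prq_mem 1 0 x
      simpa using this
    · rw [dm00]
      simp only [map_zero, smul_zero, add_zero]
      rw [oa0 h]
      have := prq_comm (oM mA : W (Vm 0) →ₗ[ℚ] W (Vm 0)) 1 0
        (fun i g x hx => by simpa using hG.A i g x hx) 1 0 x
      rw [show (1 : ZMod 2) + 1 = 0 by decide, add_zero] at this
      rw [this]
  Z x := by
    have hG := hg (Vm 0)
    refine xi_eq_zero _ ((0, prq (Vm 0) 0 2 x, 0), (0, 0, 0)) ?_ ?_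
    · refine ⟨⟨zero_mem _, ⟨?_, fun h => absurd h (by omega)⟩, ⟨zero_mem _, fun _ => rfl⟩⟩,
        ⟨zero_mem _, ⟨zero_mem _, fun _ => rfl⟩, ⟨zero_mem _, fun _ => rfl⟩⟩⟩
      have := prq_mem 0 2 x
      have e : (((0 + 1 : ℕ) : ZMod 2) + 1) = 0 := by decide
      rw [e]
      simpa using this
    · rw [dm00]
      simp only [map_zero, smul_zero, add_zero, zero_add]
      rw [oz0 h]
      have := prq_comm (oM mZ : W (Vm 0) →ₗ[ℚ] W (Vm 0)) 0 (-2)
        (fun i g x hx => by simpa [sub_eq_add_neg] using hG.Z i g x hx) 0 2 x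
      rw [add_zero, show (2 : ℤ) + -2 = 0 by norm_num] at this
      rw [this]
  Y1 x := by
    have hG := hg (Vm 0)
    refine xi_eq_zero _ ((0, 0, 0), (oL s1 (prq (Vm 0) 0 (-3) x), 0, 0)) ?_ ?_
    · refine ⟨⟨zero_mem _, ⟨zero_mem _, fun _ => rfl⟩, ⟨zero_mem _, fun _ => rfl⟩⟩,
        ⟨?_, ⟨zero_mem _, fun _ => rfl⟩, ⟨zero_mem _, fun _ => rfl⟩⟩⟩
      have := hG.L (Vm 1) s1 0 (-3) _ (prq_mem 0 (-3) x)
      simpa using this
    · rw [dm00]
      simp only [map_zero, smul_zero, add_zero, zero_add]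
      have h1 : oY (vP 0) (vQ 0) (oL s1 (prq (Vm 0) 0 (-3) x)) = oM mY1 (prq (Vm 0) 0 (-3) x) := by
        rw [oY, LinearMap.add_apply, LinearMap.comp_apply, LinearMap.comp_apply, oM_oL, oM_oL,
          oL_oL, oL_oL, P_s1, Q_s1]
        exact add_zero _
      rw [h1]
      have := prq_comm (oM mY1 : W (Vm 0) →ₗ[ℚ] W (Vm 0)) 0 3
        (fun i g x hx => by simpa using hG.Y1 i g x hx) 0 (-3) x
      rw [add_zero, show (-3 : ℤ) + 3 = 0 by norm_num] at this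
      rw [this]
  Y2 x := by
    have hG := hg (Vm 0)
    refine xi_eq_zero _ ((0, 0, 0), (oL s2 (prq (Vm 0) 0 (-3) x), 0, 0)) ?_ ?_
    · refine ⟨⟨zero_mem _, ⟨zero_mem _, fun _ => rfl⟩, ⟨zero_mem _, fun _ => rfl⟩⟩,
        ⟨?_, ⟨zero_mem _, fun _ => rfl⟩, ⟨zero_mem _, fun _ => rfl⟩⟩⟩
      have := hG.L (Vm 1) s2 0 (-3) _ (prq_mem 0 (-3) x)
      simpa using this
    · rw [dm00]
      simp only [map_zero, smul_zero, add_zero, zero_add]
      have h1 : oY (vP 0) (vQ 0) (oL s2 (prq (Vm 0) 0 (-3) x)) = oM mY2 (prq (Vm 0) 0 (-3) x) := by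
        rw [oY, LinearMap.add_apply, LinearMap.comp_apply, LinearMap.comp_apply, oM_oL, oM_oL,
          oL_oL, oL_oL, P_s2, Q_s2]
        exact zero_add _
      rw [h1]
      have := prq_comm (oM mY2 : W (Vm 0) →ₗ[ℚ] W (Vm 0)) 0 3
        (fun i g x hx => by simpa using hG.Y2 i g x hx) 0 (-3) x
      rw [add_zero, show (-3 : ℤ) + 3 = 0 by norm_num] at this
      rw [this]
  onto ξ := by
    obtain ⟨⟨⟨y, y'⟩, hy⟩, rfl⟩ := Submodule.mkQ_surjective _ ξ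
    obtain ⟨⟨h1, ⟨_, h2⟩, ⟨_, h3⟩⟩, h4⟩ := hy
    have h1' : y.1 ∈ Wg (Vm 0) 0 0 := by simpa using h1
    refine ⟨y.1, h1', ?_⟩
    unfold xi
    rw [LinearMap.comp_apply]
    congr 1
    apply Subtype.ext
    change ((prq (Vm 0) 0 0 y.1, 0, 0), 0) = (y, y')
    rw [prq_of_mem h1']
    have e2 : y.2.1 = 0 := h2 rfl
    have e3 : y.2.2 = 0 := h3 (by norm_num)
    have e4 : y' = 0 := h4
    rw [e4]
    exact Prod.ext (Prod.ext rfl (Prod.ext e2.symm e3.symm)) rfl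

end Run7.h632.Nak
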